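import Pool.Agent.V7H49.SH.F
import Pool.Agent.N868.HW.PP
import Pool.Agent.N189.HW.GP

/-!
# Almost all pairs of shifts `(b, d)` in place of `(-1, 1)`

`q(n,k) = φ(k) + φ(n-k)/2 + 1`.  The question asks for every `n ≥ 32` for a `k` such that `q = q(n,k)`, `p_q - q + b` and
`p_q - q + d` are primes, where `(b, d) = (-1, 1)`.  Here `(b, d)` runs through all pairs of integers with `|b|, |d| ≤ N`.

* For all but `N^2 / (log N)^K` pairs `(b, d)`, for all but `N / (log N)^K` of the `n ≤ N`, the number of the primes `q` of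
  the form `q(n,k)` for which `p_q - q + b` and `p_q - q + d` are primes (each weighted with the logarithms) is what the
  prime factors up to `z`, a power of `log N`, predict, with an error of at most `N / (log N)^K`.
* The same for ARBITRARY increasing sequences `u`, `v` with `u(j), v(j) ≤ j (log j)^C` in place of `p_q - q` and ARBITRARY
  sets `W_n ⊆ [1, n]` of indices.
* For at least `c (N / log log N)^2` pairs `(b, d)` there are at least `c N / (log log N)^2` numbers `n ≤ N` with at least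
  `n / (log n)^17` admissible `k`.
-/

set_option autoImplicit false

namespace Pool.Agent.Results.MP_61a569_nt.AlmostAllShiftsH49

open Finset Filter

/-- `u 1 < u 2 < …` are positive integers and `u j ≤ j (log j)^C` for large `j`, for some `C` -/
def Slow (u : ℕ → ℕ) : Prop := (∀ m n, 1 ≤ m → m < n → u m < u n) ∧ 1 ≤ u 1 ∧
  ∃ C n0 : ℕ, ∀ n, n0 ≤ n → (u n : ℝ) ≤ n * (Real.log n) ^ C

/-- the pairs of integers of absolute value at most `N` -/
noncomputable def box (N : ℕ) : Finset (ℤ × ℤ) := Icc (-(N : ℤ)) N ×ˢ Icc (-(N : ℤ)) N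

/-- the product of `1 - 1 / r` over the primes `r ≤ z` -/
noncomputable def V (z : ℕ) : ℝ := ∏ r ∈ (Icc 1 z).filter Nat.Prime, (1 - 1 / (r : ℝ))

/-- `t` is positive and has no prime factor up to `z` -/
def Rough (z : ℕ) (t : ℤ) : Prop := 1 ≤ t ∧ ∀ r : ℕ, r.Prime → r ≤ z → ¬ (r : ℤ) ∣ t

open Classical in
/-- the number of the `j ∈ S` for which `g j` and `h j` are primes, weighted with `log (g j) log (h j)` -/
noncomputable def weight (S : Finset ℕ) (g h : ℕ → ℤ) : ℝ :=
  ∑ j ∈ S.filter (fun j => (g j).toNat.Prime ∧ (h j).toNat.Prime), Real.log (g j) * Real.log (h j)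

open Classical in
/-- its prediction: the number of the `j ∈ S` for which `g j` and `h j` have no prime factor up to `z`, divided by
`V z ^ 2` -/
noncomputable def predicted (z : ℕ) (S : Finset ℕ) (g h : ℕ → ℤ) : ℝ :=
  (#(S.filter fun j => Rough z (g j) ∧ Rough z (h j)) : ℝ) / V z ^ 2

/-- the `m`-th prime, `p 1 = 2` -/
noncomputable def p (m : ℕ) : ℕ := Nat.nth Nat.Prime (m - 1)

/-- `q n k = φ(k) + φ(n - k) / 2 + 1` -/
def q (n k : ℕ) : ℕ := Nat.totient k + Nat.totient (n - k) / 2 + 1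

/-- the set of the primes of the form `q n k`, `1 ≤ k < n - 2` -/
def Q (n : ℕ) : Finset ℕ := ((Ico 1 (n - 2)).image (q n)).filter Nat.Prime

/-- `p_r - r + b` -/
noncomputable def sh (b : ℤ) (r : ℕ) : ℤ := (p r : ℤ) - r + b

open Classical in
/-- the number of the `k`, `1 ≤ k < n - 2`, for which `q = q n k`, `p_q - q + b` and `p_q - q + d` are primes -/
noncomputable def adm (b d : ℤ) (n : ℕ) : ℕ :=
  #((Ico 1 (n - 2)).filter fun k => (q n k).Prime ∧ (sh b (q n k)).toNat.Prime ∧ (sh d (q n k)).toNat.Prime)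

lemma weight_eq (S : Finset ℕ) (u v : ℕ → ℕ) (b d : ℤ) :
    weight S (fun j => (u j : ℤ) + b) (fun j => (v j : ℤ) + d) = Pool.Agent.V7H49.SH.SP u v S b d := by
  classical
  unfold weight Pool.Agent.V7H49.SH.SP
  rw [sum_filter]
  apply sum_congr rfl
  intro j _
  unfold Pool.Agent.V7H49.SH.PI
  have key : ∀ t : ℤ, t.toNat.Prime → 1 ≤ t := by
    intro t ht
    have := ht.one_lt
    omega
  by_cases h1 : ((u j : ℤ) + b).toNat.Prime
  · by_cases h2 : ((v j : ℤ) + d).toNat.Prime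
    · rw [if_pos ⟨h1, h2⟩, if_pos ⟨key _ h1, h1⟩, if_pos ⟨key _ h2, h2⟩]
    · rw [if_neg (fun h => h2 h.2), if_neg (c := 1 ≤ (v j : ℤ) + d ∧ _) (fun h => h2 h.2), mul_zero]
  · rw [if_neg (fun h => h1 h.1), if_neg (c := 1 ≤ (u j : ℤ) + b ∧ _) (fun h => h1 h.2), zero_mul]

lemma LZ_eq (z : ℕ) (t : ℤ) [Decidable (Rough z t)] :
    Pool.Agent.V7H49.SH.LZ z t = if Rough z t then (V z)⁻¹ else 0 := by
  unfold Pool.Agent.V7H49.SH.LZ Pool.Agent.H373R2.T7.lamz
  have hV : Pool.Agent.H373R2.T7.Vz z = V z := rfl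
  by_cases h1 : 1 ≤ t
  · rw [if_pos h1]
    have hiff : (∀ r ∈ Pool.Agent.H373R2.T7.pz z, ¬ r ∣ t.toNat) ↔ Rough z t := by
      unfold Rough
      constructor
      · intro h
        refine ⟨h1, fun r hr hrz hd => h r (Pool.Agent.H373R2.T7.mem_pz.2 ⟨hrz, hr⟩) ?_⟩
        rw [← Int.natCast_dvd_natCast, Int.toNat_of_nonneg (by omega)]
        exact hd
      · rintro ⟨-, h⟩ r hr hd
        obtain ⟨h2, h3⟩ := Pool.Agent.H373R2.T7.mem_pz.1 hr
        apply h r h3 h2
        rw [← Int.natCast_dvd_natCast, Int.toNat_of_nonneg (by omega)] at hd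
        exact hd
    by_cases h2 : Rough z t
    · rw [if_pos h2, if_pos (hiff.2 h2), hV]
    · rw [if_neg h2, if_neg (fun h => h2 (hiff.1 h))]
  · rw [if_neg h1, if_neg (fun h => h1 h.1)]

lemma predicted_eq (z : ℕ) (S : Finset ℕ) (u v : ℕ → ℕ) (b d : ℤ) :
    predicted z S (fun j => (u j : ℤ) + b) (fun j => (v j : ℤ) + d) = Pool.Agent.V7H49.SH.Mo z u v S b d := by
  classical
  unfold predicted Pool.Agent.V7H49.SH.Mo
  rw [card_filter]
  push_cast
  rw [sum_div]
  apply sum_congr rfl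
  intro j _
  rw [LZ_eq, LZ_eq]
  by_cases h1 : Rough z ((u j : ℤ) + b)
  · by_cases h2 : Rough z ((v j : ℤ) + d)
    · rw [if_pos ⟨h1, h2⟩, if_pos h1, if_pos h2, one_div, pow_two, mul_inv]
    · rw [if_neg (fun h => h2 h.2), if_neg h2, mul_zero, zero_div]
  · rw [if_neg (fun h => h1 h.1), if_neg h1, zero_mul, zero_div]

/-- the sequence `p_(m+1) - (m+1)` -/
noncomputable def us (m : ℕ) : ℕ := Nat.nth Nat.Prime m - (m + 1)

/-- the indices -/
def Ws (n : ℕ) : Finset ℕ := (Q n).image fun r => r - 1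

lemma us_eq (r : ℕ) (hr : r.Prime) (b : ℤ) : (us (r - 1) : ℤ) + b = sh b r := by
  have h1 := hr.one_lt
  have h2 := Nat.add_two_le_nth_prime (r - 1)
  unfold us sh p
  have h3 : r - 1 + 1 = r := by omega
  rw [h3]
  have h4 : r ≤ Nat.nth Nat.Prime (r - 1) := by omega
  rw [Nat.cast_sub h4]

lemma Q_prime {n r : ℕ} (h : r ∈ Q n) : r.Prime := (mem_filter.1 h).2

lemma Ws_inj (n : ℕ) : Set.InjOn (fun r => r - 1) (Q n : Set ℕ) := by
  intro a ha b hb hab
  have h1 := (Q_prime (mem_coe.1 ha)).one_lt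
  have h2 := (Q_prime (mem_coe.1 hb)).one_lt
  simp only at hab
  omega

lemma Ws_card (n : ℕ) : #(Ws n) = #(Q n) := card_image_of_injOn (Ws_inj n)

lemma q_le (n k : ℕ) (hk1 : 1 ≤ k) (hk : k < n - 2) : q n k ≤ n := by
  unfold q
  have h1 := Nat.totient_le k
  have h2 := Nat.totient_le (n - k)
  omega

lemma Ws_sub (n : ℕ) : Ws n ⊆ Icc 1 n := by
  intro m hm
  unfold Ws at hm
  obtain ⟨r, hr, rfl⟩ := mem_image.1 hm
  have h1 := (Q_prime hr).one_lt
  unfold Q at hr
  obtain ⟨k, hk, rfl⟩ := mem_image.1 (mem_filter.1 hr).1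
  rw [mem_Ico] at hk
  have h2 := q_le n k hk.1 hk.2
  rw [mem_Icc]
  constructor <;> omega

lemma weight_Q (n : ℕ) (b d : ℤ) :
    weight (Q n) (sh b) (sh d) = Pool.Agent.V7H49.SH.SP us us (Ws n) b d := by
  classical
  rw [← weight_eq]
  unfold weight Ws
  rw [filter_image, sum_image]
  · apply sum_congr
    · apply filter_congr
      intro r hr
      beta_reduce
      rw [us_eq r (Q_prime hr), us_eq r (Q_prime hr)]
    · intro r hr
      have := Q_prime (mem_filter.1 hr).1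
      beta_reduce
      rw [us_eq r this, us_eq r this]
  · exact (Ws_inj n).mono (by intro x hx; exact mem_coe.2 (mem_filter.1 (mem_coe.1 hx)).1)

lemma predicted_Q (z n : ℕ) (b d : ℤ) :
    predicted z (Q n) (sh b) (sh d) = Pool.Agent.V7H49.SH.Mo z us us (Ws n) b d := by
  classical
  rw [← predicted_eq]
  unfold predicted Ws
  rw [filter_image, card_image_of_injOn]
  · congr 3
    apply filter_congr
    intro r hr
    beta_reduce
    rw [us_eq r (Q_prime hr), us_eq r (Q_prime hr)]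
  · exact (Ws_inj n).mono (by intro x hx; exact mem_coe.2 (mem_filter.1 (mem_coe.1 hx)).1)

lemma both_le (n : ℕ) (b d : ℤ) : Pool.Agent.V7H49.SH.both us us (Ws n) b d ≤ adm b d n := by
  classical
  unfold Pool.Agent.V7H49.SH.both Ws
  rw [filter_image]
  refine card_image_le.trans ?_
  unfold adm
  have h1 : (Q n).filter (fun r => ((us (r - 1) : ℤ) + b).toNat.Prime ∧ ((us (r - 1) : ℤ) + d).toNat.Prime) ⊆
      ((Ico 1 (n - 2)).filter fun k => (q n k).Prime ∧ (sh b (q n k)).toNat.Prime ∧ (sh d (q n k)).toNat.Prime).image (q n) := by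
    intro r hr
    rw [mem_filter] at hr
    obtain ⟨hr1, hr2, hr3⟩ := hr
    have hp := Q_prime hr1
    rw [us_eq r hp] at hr2 hr3
    unfold Q at hr1
    obtain ⟨k, hk, rfl⟩ := mem_image.1 (mem_filter.1 hr1).1
    rw [mem_image]
    exact ⟨k, mem_filter.2 ⟨hk, hp, hr2, hr3⟩, rfl⟩
  exact (card_le_card h1).trans card_image_le

lemma slow_us : Pool.Agent.V7H49.SH.Slow us := Pool.Agent.N189.HW.gp

open Classical in
theorem result :
    -- arbitrary sequences and arbitrary sets of indices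
    (∀ u v : ℕ → ℕ, Slow u → Slow v → ∀ K : ℕ, ∃ B : ℕ, ∀ E : ℕ, ∃ N0 : ℕ, ∀ N : ℕ, N0 ≤ N →
      ∀ z : ℕ, Real.log N ^ B ≤ z → (z : ℝ) ≤ Real.log N ^ E → ∀ W : ℕ → Finset ℕ, (∀ n, W n ⊆ Icc 1 n) →
      (#((box N).filter fun s => (N : ℝ) / Real.log N ^ K <
        #((Icc 1 N).filter fun n : ℕ => (N : ℝ) / Real.log N ^ K <
          |weight (W n) (fun j => (u j : ℤ) + s.1) (fun j => (v j : ℤ) + s.2) -
            predicted z (W n) (fun j => (u j : ℤ) + s.1) (fun j => (v j : ℤ) + s.2)|)) : ℝ) ≤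
        (N : ℝ) ^ 2 / Real.log N ^ K) ∧
    -- the primes of the form `q n k`
    (∀ K : ℕ, ∃ B : ℕ, ∀ E : ℕ, ∃ N0 : ℕ, ∀ N : ℕ, N0 ≤ N →
      ∀ z : ℕ, Real.log N ^ B ≤ z → (z : ℝ) ≤ Real.log N ^ E →
      (#((box N).filter fun s => (N : ℝ) / Real.log N ^ K <
        #((Icc 32 N).filter fun n : ℕ => (N : ℝ) / Real.log N ^ K <
          |weight (Q n) (sh s.1) (sh s.2) - predicted z (Q n) (sh s.1) (sh s.2)|)) : ℝ) ≤
        (N : ℝ) ^ 2 / Real.log N ^ K) ∧
    -- many pairs of shifts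
    (∃ c : ℝ, 0 < c ∧ ∃ N0 : ℕ, ∀ N : ℕ, N0 ≤ N →
      c * (N : ℝ) ^ 2 / Real.log (Real.log N) ^ 2 ≤
        #((box N).filter fun s => c * (N : ℝ) / Real.log (Real.log N) ^ 2 ≤
          #((Icc 32 N).filter fun n : ℕ => (n : ℝ) / Real.log n ^ 17 ≤ adm s.1 s.2 n))) := by
  refine ⟨fun u v hu hv K => ?_, fun K => ?_, ?_⟩
  · obtain ⟨B, hB⟩ := Pool.Agent.V7H49.SH.four u v hu hv K
    refine ⟨B, fun E => ?_⟩
    obtain ⟨N0, hN0⟩ := hB E
    refine ⟨N0, fun N hN z hz1 hz2 W hW => ?_⟩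
    have h1 := hN0 N hN z hz1 hz2 W hW
    simp only [weight_eq, predicted_eq]
    unfold box
    exact h1
  · obtain ⟨B, hB⟩ := Pool.Agent.V7H49.SH.four us us slow_us slow_us K
    refine ⟨B, fun E => ?_⟩
    obtain ⟨N0, hN0⟩ := hB E
    refine ⟨N0, fun N hN z hz1 hz2 => ?_⟩
    have h1 := hN0 N hN z hz1 hz2 Ws Ws_sub
    refine le_trans ?_ h1
    rw [Nat.cast_le]
    apply card_le_card
    intro s hs
    rw [mem_filter] at hs ⊢
    refine ⟨hs.1, lt_of_lt_of_le hs.2 ?_⟩
    rw [Nat.cast_le]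
    apply card_le_card
    intro n hn
    rw [mem_filter] at hn ⊢
    rw [weight_Q, predicted_Q] at hn
    refine ⟨?_, hn.2⟩
    have := mem_Icc.1 hn.1
    rw [mem_Icc]
    constructor <;> omega
  · obtain ⟨c, hc, hev⟩ := Pool.Agent.N868.HW.pp
    obtain ⟨x0, hx0⟩ := eventually_atTop.1 hev
    obtain ⟨c', hc', N0, h5⟩ := Pool.Agent.V7H49.SH.five us us slow_us slow_us c hc 14
    obtain ⟨m1, h1⟩ := Pool.Agent.V7H49.SH.ev_pow 3
    obtain ⟨m2, h2⟩ := Pool.Agent.H373R2.T7.ev_L' (max 16 (62 / c'))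
    refine ⟨c' / 2, by positivity, max (max N0 x0) (max m1 m2), fun N hN => ?_⟩
    have a1 : N0 ≤ N := le_trans (le_trans (le_max_left _ _) (le_max_left _ _)) hN
    have a2 : x0 ≤ N := le_trans (le_trans (le_max_right _ _) (le_max_left _ _)) hN
    have hpw := h1 N (le_trans (le_trans (le_max_left _ _) (le_max_right _ _)) hN)
    have hLL := h2 N (le_trans (le_trans (le_max_right _ _) (le_max_right _ _)) hN)
    set L := Real.log N with hLd
    have hL16 : 16 ≤ L := (le_max_left _ _).trans hLL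
    have hLc : 62 / c' ≤ L := (le_max_right _ _).trans hLL
    rw [div_le_iff₀ hc'] at hLc
    have hL0 : 0 < L := by linarith
    have hl1 : 1 ≤ Real.log L := by
      rw [← Real.log_exp 1]
      apply Real.log_le_log (Real.exp_pos _)
      have := Real.exp_one_lt_d9
      linarith
    have hlL : Real.log L ≤ L := (Real.log_le_sub_one_of_pos hL0).trans (by linarith)
    have hbig : 62 ≤ c' * (N : ℝ) / Real.log L ^ 2 := by
      rw [le_div_iff₀ (by positivity)]
      have h6 : Real.log L ^ 2 ≤ L ^ 2 := pow_le_pow_left₀ (by linarith) hlL _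
      calc 62 * Real.log L ^ 2 ≤ (L * c') * L ^ 2 := mul_le_mul hLc h6 (by positivity) (by positivity)
        _ = c' * L ^ 3 := by ring
        _ ≤ c' * N := mul_le_mul_of_nonneg_left hpw hc'.le
    have hmain := h5 N a1 Ws Ws_sub (by
      refine (hx0 N a2).trans ?_
      rw [Nat.cast_le]
      apply card_le_card
      intro n hn
      rw [mem_filter, mem_Icc] at hn
      rw [mem_filter, mem_Icc]
      refine ⟨⟨by omega, hn.1.2⟩, ?_⟩
      rw [Ws_card]
      exact hn.2)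
    have hhalf : c' / 2 * (N : ℝ) ^ 2 / Real.log L ^ 2 ≤ c' * (N : ℝ) ^ 2 / Real.log L ^ 2 := by
      apply div_le_div_of_nonneg_right _ (by positivity)
      apply mul_le_mul_of_nonneg_right _ (by positivity)
      linarith
    refine (hhalf.trans hmain).trans ?_
    rw [Nat.cast_le]
    apply card_le_card
    intro s hs
    rw [mem_filter] at hs ⊢
    refine ⟨hs.1, ?_⟩
    have h7 : ((Icc 1 N).filter fun n : ℕ => (n : ℝ) / Real.log n ^ (14 + 3) ≤
        (Pool.Agent.V7H49.SH.both us us (Ws n) s.1 s.2 : ℝ)) ⊆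
        ((Icc 32 N).filter fun n : ℕ => (n : ℝ) / Real.log n ^ 17 ≤ adm s.1 s.2 n) ∪ Icc 1 31 := by
      intro n hn
      rw [mem_filter, mem_Icc] at hn
      rw [mem_union, mem_filter, mem_Icc, mem_Icc]
      rcases Nat.lt_or_ge n 32 with h | h
      · exact Or.inr ⟨hn.1.1, by omega⟩
      · refine Or.inl ⟨⟨h, hn.1.2⟩, hn.2.trans ?_⟩
        exact_mod_cast both_le n s.1 s.2
    have h8 := (card_le_card h7).trans (card_union_le _ _)
    rw [Nat.card_Icc] at h8
    have h9 : (#((Icc 1 N).filter fun n : ℕ => (n : ℝ) / Real.log n ^ (14 + 3) ≤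
        (Pool.Agent.V7H49.SH.both us us (Ws n) s.1 s.2 : ℝ)) : ℝ) ≤
        (#((Icc 32 N).filter fun n : ℕ => (n : ℝ) / Real.log n ^ 17 ≤ adm s.1 s.2 n) : ℝ) + 31 := by
      exact_mod_cast h8
    have h10 := hs.2.trans h9
    have h11 : c' / 2 * (N : ℝ) / Real.log L ^ 2 = (c' * (N : ℝ) / Real.log L ^ 2) / 2 := by ring
    rw [h11]
    linarith

end Pool.Agent.Results.MP_61a569_nt.AlmostAllShiftsH49
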