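import Pool.Agent.V7H38.TS.Main
import Pool.Agent.V7H94.TS.GOLD
import Pool.Agent.V7H16.TS.PROD
import Pool.Agent.V7H46.TS.SIEVE

/-!
# The numbers `φ(k) + φ(n - k) / 2 + 1` in arbitrary sets

`q(n,k) = φ(k) + φ(n - k) / 2 + 1`, `1 ≤ k < n - 2`; the question asks for `k` such that `q(n,k)` is in the set of the
admissible primes, the primes `r` for which `p_r - r - 1` and `p_r - r + 1` are prime. Nothing is known about this set. The
theorem separates the two parts of the question: let `W ⊆ [X, 2 X]` be an ARBITRARY set of at least `X / (log X)^C` odd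
numbers (`C` arbitrary). Then for at least `c X / (log log X)^4` of the integers `n ≤ 6 X` there are at least
`c |W| / (log X)^2` numbers `k` with `q(n,k) ∈ W`. So the statement of Q1 is true for at least `c X / (log log X)^4` of the
integers `n ≤ 6 X` as soon as there are at least `X / (log X)^C` admissible primes in `[X, 2 X]`, for any `C`; the expected
number is of order `X / (log X)^3`.

Proof. For primes `r`, `s ≠ 3` and `n = r + 3 s` we have `q(n, r) = r + s - 1`. Almost all even numbers `m + 1` have at least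
`X / (8 (log X)^2)` representations as `r + s`, with `O(X / (log X)^U)` exceptions for every `U` (starting library,
`Pool.Agent.W93.GB.fam`), so most `m ∈ W` have. The number `n = m + 2 s + 1` can be the same for different `m`: a coincidence of
`m` and `m' = m - 2 h` requires that the four numbers `s`, `s + h`, `a - s`, `a - 3 h - s`, `a = m + 1`, are primes. The
upper bound sieve and the inequality of Cauchy and Schwarz give the theorem.
-/

set_option autoImplicit false

namespace Pool.Agent.Results.MP_61a569_nt.ArbitrarySetsH38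

open Finset
open Pool.Agent.V7H38.TS (q ks S_GOLD S_SIEVE S_TS t_ASM)

/-- The `m`-th prime: `p 1 = 2`, `p 2 = 3`. -/
noncomputable def p (m : ℕ) : ℕ := Nat.nth Nat.Prime (m - 1)

/-- `r`, `p_r - r - 1` and `p_r - r + 1` are primes. -/
def Admissible (r : ℕ) : Prop := r.Prime ∧ (p r - r - 1).Prime ∧ (p r - r + 1).Prime

open Classical in
/-- The admissible primes in `[X, 2 X]`. -/
noncomputable def admPrimes (X : ℕ) : Finset ℕ := (Icc X (2 * X)).filter Admissible

open Classical in
/-- The `k`, `1 ≤ k < n - 2`, which are admissible for `n`. -/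
noncomputable def admissibleFor (n : ℕ) : Finset ℕ := (Ico 1 (n - 2)).filter (fun k => Admissible (q n k))

open Classical in
lemma main (hTS : S_TS) : ∃ c : ℝ, 0 < c ∧
    (∀ C : ℕ, ∃ X₀ : ℕ, ∀ X : ℕ, X₀ ≤ X → ∀ W : Finset ℕ, W ⊆ Icc X (2 * X) → (∀ m ∈ W, Odd m) →
      (X : ℝ) / Real.log X ^ C ≤ W.card →
      c * X / Real.log (Real.log X) ^ 4 ≤
        (((Icc 32 (6 * X)).filter (fun n => c * W.card / Real.log X ^ 2 ≤ ((ks W n).card : ℝ))).card : ℝ)) ∧
    (∀ C : ℕ, ∃ X₀ : ℕ, ∀ X : ℕ, X₀ ≤ X → (X : ℝ) / Real.log X ^ C ≤ (admPrimes X).card →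
      c * X / Real.log (Real.log X) ^ 4 ≤
        (((Icc 32 (6 * X)).filter (fun n => (∃ k, 1 ≤ k ∧ k < n - 2 ∧ Admissible (q n k)) ∧
          c * (admPrimes X).card / Real.log X ^ 2 ≤ ((admissibleFor n).card : ℝ))).card : ℝ)) := by
  obtain ⟨c, hc, h⟩ := hTS
  refine ⟨c, hc, h, fun C => ?_⟩
  obtain ⟨X₀, hX₀⟩ := h C
  refine ⟨max X₀ 3, fun X hX hcard => ?_⟩
  have hX3 : 3 ≤ X := (le_max_right _ _).trans hX
  have hX3r : (3 : ℝ) ≤ X := by exact_mod_cast hX3
  have hlog : 0 < Real.log X := Real.log_pos (by linarith)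
  have hpos : (0 : ℝ) < (admPrimes X).card := lt_of_lt_of_le (by positivity) hcard
  refine (hX₀ X ((le_max_left _ _).trans hX) (admPrimes X) (filter_subset _ _) ?_ hcard).trans ?_
  · intro m hm
    unfold admPrimes at hm
    rw [mem_filter, mem_Icc] at hm
    exact hm.2.1.odd_of_ne_two (by omega)
  · apply Nat.cast_le.2
    apply card_le_card
    intro n hn
    rw [mem_filter] at hn ⊢
    have hsub : ks (admPrimes X) n ⊆ admissibleFor n := by
      intro k hk
      unfold ks admPrimes at hk
      unfold admissibleFor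
      rw [mem_filter, mem_filter] at hk
      rw [mem_filter]
      exact ⟨hk.1, hk.2.2⟩
    have h1 : 0 < ((ks (admPrimes X) n).card : ℝ) := lt_of_lt_of_le (by positivity) hn.2
    have h2 : 0 < (ks (admPrimes X) n).card := by exact_mod_cast h1
    obtain ⟨k, hk⟩ := card_pos.1 h2
    have h3 := hsub hk
    unfold admissibleFor at h3
    rw [mem_filter, mem_Ico] at h3
    exact ⟨hn.1, ⟨k, h3.1.1, h3.1.2, h3.2⟩, hn.2.trans (by exact_mod_cast card_le_card hsub)⟩

open Classical in
/-- **The values of `q(n,k) = φ(k) + φ(n - k) / 2 + 1` in arbitrary sets.** There is an absolute constant `c > 0`: (1) For all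
`C` and all large `X` and every set `W ⊆ [X, 2 X]` of at least `X / (log X)^C` odd numbers, for at least
`c X / (log log X)^4` of the integers `n`, `32 ≤ n ≤ 6 X`, there are at least `c |W| / (log X)^2` numbers `k`,
`1 ≤ k < n - 2`, with `q(n,k) ∈ W`. (2) For all `C` and all large `X`: if there are at least `X / (log X)^C` admissible
primes in `[X, 2 X]`, then for at least `c X / (log log X)^4` of the integers `n`, `32 ≤ n ≤ 6 X`, there are at least
`c #(admissible primes in [X, 2 X]) / (log X)^2` admissible `k`; in particular there is one. -/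
theorem result : ∃ c : ℝ, 0 < c ∧
    (∀ C : ℕ, ∃ X₀ : ℕ, ∀ X : ℕ, X₀ ≤ X → ∀ W : Finset ℕ, W ⊆ Icc X (2 * X) → (∀ m ∈ W, Odd m) →
      (X : ℝ) / Real.log X ^ C ≤ W.card →
      c * X / Real.log (Real.log X) ^ 4 ≤
        (((Icc 32 (6 * X)).filter (fun n => c * W.card / Real.log X ^ 2 ≤ ((ks W n).card : ℝ))).card : ℝ)) ∧
    (∀ C : ℕ, ∃ X₀ : ℕ, ∀ X : ℕ, X₀ ≤ X → (X : ℝ) / Real.log X ^ C ≤ (admPrimes X).card →
      c * X / Real.log (Real.log X) ^ 4 ≤
        (((Icc 32 (6 * X)).filter (fun n => (∃ k, 1 ≤ k ∧ k < n - 2 ∧ Admissible (q n k)) ∧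
          c * (admPrimes X).card / Real.log X ^ 2 ≤ ((admissibleFor n).card : ℝ))).card : ℝ)) :=
  main (t_ASM Pool.Agent.V7H94.TS.t_GOLD (Pool.Agent.V7H46.TS.t_SIEVE Pool.Agent.V7H16.TS.t_PROD))

end Pool.Agent.Results.MP_61a569_nt.ArbitrarySetsH38
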