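import Pool.Agent.V7H86.GM.Main

/-!
# Totient-sum primes `q` for which `p_q - q` is the midpoint of two primes

`q(n, k) = φ(k) + φ(n - k) / 2 + 1`. The problem asks for `k`, `1 ≤ k < n - 2`, such that `q = q(n, k)`,
`p_q - q - 1` and `p_q - q + 1` are primes. Here `1` is replaced by some `h ≤ (p_q - q) / (log (p_q - q)) ^ A`,
for every fixed `A`.

(1) For ALL large `n` for which at least `n / (log n) ^ C` primes `r` are of the form `q(n, k)`: for all these
primes `r` but a proportion of at most `1 / (log n) ^ K` and all `H` between `M / (log M) ^ A` and `M - 1`,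
`M = p_r - r`, the number of the `h ≤ H` for which `p_r - r - h` and `p_r - r + h` are both primes is the expected
one, `2 C₂ ∏_{l ∣ M, l > 2} (l - 1) / (l - 2) H / (log 2 M) ^ 2`, up to a factor between `1 - ε` and `1 + ε`;
`A`, `C`, `K` and `ε > 0` are arbitrary.

(2) There is `c > 0` such that for all `A` and all large `x` at least `c x` of the `n ≤ x` have the following
property: there are at least `n / (log n) ^ 15` different primes `r` of the form `q(n, k)` such that
`p_r - r - h` and `p_r - r + h` are both primes for some `h` with `1 ≤ h ≤ (p_r - r) / (log (p_r - r)) ^ A`.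

Proof. The primes `r` of the form `q(n, k)` are at least `n / (log n) ^ 14` in number for a positive proportion of
the `n` (starting file `PositiveProportion` of this problem, `Pool.Agent.N868.HW`). The numbers `p_r - r` are
different and at most `n (log n) ^ C'`, and for all but `X / (log X) ^ U` of the `M ≤ X` the number of the
representations of `2 M` as a sum of two primes is as predicted in all windows of length at least
`M / (log M) ^ A` (`Pool.Agent.W93.PG`, starting files).
-/

set_option autoImplicit false

namespace Pool.Agent.Results.MP_61a569_nt.GoldbachMidpointsH86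

open Finset Filter
open Pool.Agent.H560R3.GB (sing)

/-- the `m`-th prime, `p 1 = 2` -/
noncomputable def p (m : ℕ) : ℕ := Nat.nth Nat.Prime (m - 1)

/-- `q n k = φ(k) + φ(n - k) / 2 + 1` -/
def q (n k : ℕ) : ℕ := Nat.totient k + Nat.totient (n - k) / 2 + 1

/-- the set of the primes of the form `q n k`, `1 ≤ k < n - 2` -/
def Q (n : ℕ) : Finset ℕ := ((Ico 1 (n - 2)).image (q n)).filter Nat.Prime

/-- the number of the `h`, `1 ≤ h ≤ H`, for which `M - h` and `M + h` are both primes -/
def pairs (M H : ℕ) : ℕ := #((Icc 1 H).filter fun h => (M - h).Prime ∧ (M + h).Prime)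

/-- the expected number `2 C₂ ∏_{l ∣ M, l > 2} (l - 1) / (l - 2) H / (log 2 M) ^ 2`, the product over primes `l` -/
noncomputable def expected (M H : ℕ) : ℝ := sing (2 * M) * H / Real.log ((2 * M : ℕ) : ℝ) ^ 2

/-- the number of the pairs is the expected one, up to a factor between `1 - ε` and `1 + ε`, for all
`H` between `M / (log M) ^ A` and `M - 1` -/
def Law (ε : ℝ) (A M : ℕ) : Prop := ∀ H : ℕ, (M : ℝ) / Real.log M ^ A ≤ H → H < M →
  |(pairs M H : ℝ) - expected M H| ≤ ε * expected M H

/-- `M - h` and `M + h` are both primes for some `h` with `1 ≤ h ≤ M / (log M) ^ A` -/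
def IsMidpoint (A M : ℕ) : Prop :=
  ∃ h : ℕ, 1 ≤ h ∧ (h : ℝ) ≤ M / Real.log M ^ A ∧ (M - h).Prime ∧ (M + h).Prime

open Classical in
/-- **Totient-sum primes and midpoints of two primes.** (1) For all `ε > 0`, `A`, `C`, `K` and ALL large `n` with at
least `n / (log n) ^ C` primes of the form `q(n, k)`, all but a proportion `1 / (log n) ^ K` of these primes `r`
satisfy the law for the number of the `h ≤ H` with `p_r - r - h` and `p_r - r + h` both prime. (2) For a positive
proportion of the `n` (the same for all `A`) there are at least `n / (log n) ^ 15` primes `r` of the form `q(n, k)`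
for which `p_r - r` is the midpoint of two primes whose distance from it is at most
`(p_r - r) / (log (p_r - r)) ^ A`. -/
theorem result :
    (∀ ε : ℝ, 0 < ε → ∀ A C K : ℕ, ∃ n₀ : ℕ, ∀ n : ℕ, n₀ ≤ n →
      (n : ℝ) / Real.log n ^ C ≤ #(Q n) →
        (#((Q n).filter fun r => ¬ Law ε A (p r - r)) : ℝ) ≤ #(Q n) / Real.log n ^ K) ∧
    (∃ c : ℝ, 0 < c ∧ ∀ A : ℕ, ∀ᶠ x : ℕ in atTop,
      c * x ≤ #((Icc 32 x).filter fun n : ℕ =>
        (n : ℝ) / Real.log n ^ 15 ≤ #((Q n).filter fun r => IsMidpoint A (p r - r)))) := by
  refine ⟨fun ε hε A C K => ?_, ?_⟩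
  · exact Pool.Agent.V7H86.GM.mainB ε hε A C K
  · exact Pool.Agent.V7H86.GM.mainA

end Pool.Agent.Results.MP_61a569_nt.GoldbachMidpointsH86
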