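import Pool.Agent.V7H38.TS.PosC
import Pool.Agent.V7H94.TS.GOLD

/-!
# The numbers `φ(k) + φ(n - k) / 2 + 1` in sets of primes

`q(n,k) = φ(k) + φ(n - k) / 2 + 1`, `1 ≤ k < n - 2`; the question asks for `k` such that `r = q(n,k)`, `p_r - r - 1` and
`p_r - r + 1` are primes. Let `W` be ANY set of at least `δ X / log X` primes in `[X, 2 X]`, `δ > 0`. Then for a positive
proportion of the integers `n ≤ 6 X` there are at least `c δ X / (log X)^3` numbers `k` with `q(n,k) ∈ W`; this is the true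
order of magnitude of the number of such `k` which are primes and for which `n - k` is three times a prime. An application:
`p_r - r - 1` and `p_r - r + 1` can be given any property shared by almost all integers, if the number of exceptions up to
`Y` is at most `Y / (100 (log Y)^2)`; for instance at most `(log v)^A` divisors, for any `A > 3`.

Proof. For primes `r`, `s ≠ 3` and `n = r + 3 s` we have `q(n, r) = r + s - 1`. Almost all even numbers `m + 1` in
`[X, 2 X + 1]` have at least `X / (8 (log X)^2)` representations as `r + s` (starting library, `Pool.Agent.W93.GB.fam`, with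
`O(X / (log X)^U)` exceptions), so most `m ∈ W` have. The number of representations of `n` as `m + 2 s + 1`, with primes `m`,
`s`, `m + 1 - s`, is at most `C X G(n) / (log X)^3`, with `G(n)` bounded in mean square (upper bound sieve). The inequality
of Cauchy and Schwarz gives the theorem.
-/

set_option autoImplicit false

namespace Pool.Agent.Results.MP_61a569_nt.PositiveDensityPrimesH38

open Finset
open Pool.Agent.V7H38.TS (q ks)

/-- The `m`-th prime: `p 1 = 2`, `p 2 = 3`. -/
noncomputable def p (m : ℕ) : ℕ := Nat.nth Nat.Prime (m - 1)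

open Classical in
/-- The `k`, `1 ≤ k < n - 2`, for which `r = q(n,k)` is a prime and `p_r - r - 1`, `p_r - r + 1` have the property `R`. -/
noncomputable def withProperty (R : ℕ → Prop) (n : ℕ) : Finset ℕ :=
  (Ico 1 (n - 2)).filter (fun k => (q n k).Prime ∧ R (p (q n k) - q n k - 1) ∧ R (p (q n k) - q n k + 1))

open Classical in
/-- The integers `v`, `1 ≤ v ≤ Y`, without the property `R`. -/
noncomputable def exceptions (R : ℕ → Prop) (Y : ℕ) : Finset ℕ := (Icc 1 Y).filter (fun v => ¬ R v)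

open Classical in
/-- **The values of `q(n,k) = φ(k) + φ(n - k) / 2 + 1` in sets of primes of positive relative density.** There is an absolute
constant `c > 0`: (1) For all `δ > 0` and all large `X` and every set `W ⊆ [X, 2 X]` of at least `δ X / log X` primes, for at
least `c δ² X` of the integers `n`, `32 ≤ n ≤ 6 X`, there are at least `c δ X / (log X)^3` numbers `k`, `1 ≤ k < n - 2`, with
`q(n,k) ∈ W`. (2) For every property `R` of integers which fails for at most `Y / (100 (log Y)^2)` of the integers `v ≤ Y`,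
for all large `Y`, and all large `X`: for at least `c X` of the integers `n`, `32 ≤ n ≤ 6 X`, there are at least
`c X / (log X)^3` numbers `k`, `1 ≤ k < n - 2`, for which `r = q(n,k)` is a prime and `p_r - r - 1` and `p_r - r + 1` have the
property `R`. (3) In particular for `R(v)`: `v` has at most `(log v)^A` divisors, for every real `A > 3`. -/
theorem result : ∃ c : ℝ, 0 < c ∧
    (∀ δ : ℝ, 0 < δ → ∃ X₀ : ℕ, ∀ X : ℕ, X₀ ≤ X → ∀ W : Finset ℕ, W ⊆ Icc X (2 * X) → (∀ m ∈ W, m.Prime) →
      δ * X / Real.log X ≤ W.card →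
      c * δ ^ 2 * X ≤
        (((Icc 32 (6 * X)).filter (fun n => c * δ * X / Real.log X ^ 3 ≤ ((ks W n).card : ℝ))).card : ℝ)) ∧
    (∀ R : ℕ → Prop,
      (∃ Y₀ : ℕ, ∀ Y : ℕ, Y₀ ≤ Y → ((exceptions R Y).card : ℝ) ≤ Y / (100 * Real.log Y ^ 2)) →
      ∃ X₀ : ℕ, ∀ X : ℕ, X₀ ≤ X →
      c * X ≤ (((Icc 32 (6 * X)).filter
        (fun n => c * X / Real.log X ^ 3 ≤ ((withProperty R n).card : ℝ))).card : ℝ)) ∧
    (∀ A : ℝ, 3 < A → ∃ X₀ : ℕ, ∀ X : ℕ, X₀ ≤ X →
      c * X ≤ (((Icc 32 (6 * X)).filter (fun n => c * X / Real.log X ^ 3 ≤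
        ((withProperty (fun v => (v.divisors.card : ℝ) ≤ Real.log v ^ A) n).card : ℝ))).card : ℝ)) := by
  have hpos := Pool.Agent.V7H38.TS.pos_of Pool.Agent.V7H94.TS.t_GOLD
  obtain ⟨c₁, h₁, hA⟩ := id hpos
  obtain ⟨c₂, h₂, hB⟩ := Pool.Agent.V7H38.TS.prop_of hpos
  have hB' : ∀ R : ℕ → Prop,
      (∃ Y₀ : ℕ, ∀ Y : ℕ, Y₀ ≤ Y → ((exceptions R Y).card : ℝ) ≤ Y / (100 * Real.log Y ^ 2)) →
      ∃ X₀ : ℕ, ∀ X : ℕ, X₀ ≤ X →
      min c₁ c₂ * X ≤ (((Icc 32 (6 * X)).filter
        (fun n => min c₁ c₂ * X / Real.log X ^ 3 ≤ ((withProperty R n).card : ℝ))).card : ℝ) := by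
    intro R hR
    obtain ⟨X₀, hX₀⟩ := hB R hR
    refine ⟨max X₀ 3, fun X hX => ?_⟩
    have hX0 : (0 : ℝ) ≤ X := Nat.cast_nonneg X
    have hX1 : (1 : ℝ) ≤ X := by exact_mod_cast (by omega : 1 ≤ X)
    have hL : 0 ≤ Real.log X := Real.log_nonneg hX1
    refine (mul_le_mul_of_nonneg_right (min_le_right c₁ c₂) hX0).trans
      ((hX₀ X ((le_max_left _ _).trans hX)).trans ?_)
    apply Nat.cast_le.2
    apply card_le_card
    intro n hn
    rw [mem_filter] at hn ⊢
    refine ⟨hn.1, le_trans ?_ hn.2⟩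
    apply div_le_div_of_nonneg_right _ (by positivity)
    exact mul_le_mul_of_nonneg_right (min_le_right c₁ c₂) hX0
  refine ⟨min c₁ c₂, lt_min h₁ h₂, ?_, hB', ?_⟩
  · intro δ hδ
    obtain ⟨X₀, hX₀⟩ := hA δ hδ
    refine ⟨max X₀ 3, fun X hX W hW hp hc => ?_⟩
    have hX0 : (0 : ℝ) ≤ X := Nat.cast_nonneg X
    have hX1 : (1 : ℝ) ≤ X := by exact_mod_cast (by omega : 1 ≤ X)
    have hL : 0 ≤ Real.log X := Real.log_nonneg hX1
    have e1 : min c₁ c₂ * δ ^ 2 * X ≤ c₁ * δ ^ 2 * X := by
      rw [mul_assoc, mul_assoc]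
      exact mul_le_mul_of_nonneg_right (min_le_left c₁ c₂) (by positivity)
    refine e1.trans ((hX₀ X ((le_max_left _ _).trans hX) W hW hp hc).trans ?_)
    apply Nat.cast_le.2
    apply card_le_card
    intro n hn
    rw [mem_filter] at hn ⊢
    refine ⟨hn.1, le_trans ?_ hn.2⟩
    apply div_le_div_of_nonneg_right _ (by positivity)
    rw [mul_assoc, mul_assoc]
    exact mul_le_mul_of_nonneg_right (min_le_left c₁ c₂) (by positivity)
  · intro A hA3
    exact hB' _ (Pool.Agent.V7H38.TS.few_div A hA3)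

end Pool.Agent.Results.MP_61a569_nt.PositiveDensityPrimesH38
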